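import Mathlib
import Pool.Agent.W307.RT.Tors
import Pool.Agent.X257.CH.Main

/-!
# The ranks over the abelian fields of 2-power degree and over their multiquadratic extensions

Let `F` be a subfield of `ℚ(ζ_N)` whose degree is a power of two, `d_1, ..., d_r` nonzero integers
and `L = F(√d_1, ..., √d_r)`. All elliptic curves `E` over `ℚ` with full rational 2-torsion are
ordered by height. The average of `4 ^ (rank E^D(L) / (2 ^ r [F : ℚ]))`, where `E^D` is the twist of
`E` by the integer `D ≠ 0`, is at most `C * 128 ^ ω(D d_1 ... d_r)` with a constant `C` that depends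
only on `F`. So the average of the rank of `E^D` over `L` is at most
`2 ^ r [F : ℚ] (C + 7/2 ω(D d_1 ... d_r))`.
-/

namespace Pool.Agent.Results.MP_7cad78_nt.AbelianTwoPowerFields

open Finset Filter WeierstrassCurve

/-- the curve `y² = x³ + A x + B` over `ℚ` -/
def E (A B : ℤ) : WeierstrassCurve ℚ := ⟨0, 0, 0, (A : ℚ), (B : ℚ)⟩

open Classical in
/-- The pairs `(A, B)` of integers such that `4 A³ + 27 B² ≠ 0`, there is no prime `p` with
`p⁴ ∣ A` and `p⁶ ∣ B`, the height `max (4 |A|³) (27 B²)` is at most `H`, and `Z/2 x Z/2` embeds in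
the group of the rational points of `y² = x³ + A x + B`. (The bounds `|A|, |B| ≤ H` follow from the
bound of the height. Every elliptic curve over `ℚ` is isomorphic to `E A B` for exactly one pair
with the first two properties.) -/
noncomputable def Fam (H : ℕ) : Finset (ℤ × ℤ) :=
  ((Icc (-(H : ℤ)) H) ×ˢ (Icc (-(H : ℤ)) H)).filter (fun c : ℤ × ℤ =>
    4 * c.1 ^ 3 + 27 * c.2 ^ 2 ≠ 0 ∧ 4 * |c.1| ^ 3 ≤ H ∧ 27 * c.2 ^ 2 ≤ H ∧
    (∀ p : ℕ, p.Prime → ¬ ((p : ℤ) ^ 4 ∣ c.1 ∧ (p : ℤ) ^ 6 ∣ c.2)) ∧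
    ∃ f : ZMod 2 × ZMod 2 →+ (E c.1 c.2).toAffine.Point, Function.Injective f)

open Classical in
/-- The rank over `L` of the twist `y² = x³ + D² A x + D³ B` of `y² = x³ + A x + B` by `D`. -/
noncomputable def rank (L : Type) [Field L] (D A B : ℤ) : ℕ :=
  Module.finrank ℤ
    (⟨0, 0, 0, ((D ^ 2 * A : ℤ) : L), ((D ^ 3 * B : ℤ) : L)⟩ : WeierstrassCurve L).toAffine.Point

lemma Fam_eq (H : ℕ) : Fam H = Pool.Agent.W307.RT.Cv 2 H := by
  classical
  unfold Fam Pool.Agent.W307.RT.Cv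
  apply filter_congr
  intro c _
  have h : Pool.Agent.W307.RT.HasT 2 (Pool.Agent.W307.RT.Sh c.1 c.2) ↔
      ∃ f : ZMod 2 × ZMod 2 →+ (E c.1 c.2).toAffine.Point, Function.Injective f :=
    Pool.Agent.W307.RT.tors_iff
  rw [h]

lemma card_tendsto : Tendsto (fun H : ℕ => (Fam H).card) atTop atTop := by
  simp only [Fam_eq]
  exact Pool.Agent.W307.RT.tendsto_of_low Pool.Agent.W672.FK.lowf

/-- the average of the exponents -/
lemma avg_of_exp {ι : Type} (s : Finset ι) (f : ι → ℝ) (hf : ∀ i ∈ s, 0 ≤ f i) {M C : ℝ} (w : ℕ)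
    (hM : 0 < M)
    (h : ∑ i ∈ s, (4 : ℝ) ^ (f i / M) ≤ C * 128 ^ w * s.card) :
    ∑ i ∈ s, f i ≤ M * (Real.logb 4 (max C 1) + 7 / 2 * w) * s.card := by
  rcases s.eq_empty_or_nonempty with rfl | hs
  · simp
  have hc : (0 : ℝ) < s.card := by exact_mod_cast card_pos.2 hs
  have h1 := Pool.Agent.X257.CH.jensen s hs (fun i => f i / M)
  have h2 : (4 : ℝ) ^ ((∑ i ∈ s, f i / M) / s.card) ≤ (4 : ℝ) ^
      (Real.logb 4 (max C 1) + 7 / 2 * w) := by
    refine h1.trans ?_
    rw [div_le_iff₀ hc]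
    refine h.trans ?_
    rw [Real.rpow_add (by norm_num), Real.rpow_logb (by norm_num) (by norm_num)
      (lt_of_lt_of_le one_pos (le_max_right _ _))]
    have e : (4 : ℝ) ^ ((7 : ℝ) / 2 * w) = 128 ^ w := by
      rw [Real.rpow_mul (by norm_num), Real.rpow_natCast]
      congr 1
      rw [show (4 : ℝ) = 2 ^ (2 : ℝ) by norm_num, ← Real.rpow_mul (by norm_num)]
      norm_num
    rw [e]
    gcongr
    exact le_max_left _ _
  have h3 := (Real.rpow_le_rpow_left_iff (by norm_num : (1 : ℝ) < 4)).1 h2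
  rw [← sum_div, div_div, div_le_iff₀ (by positivity)] at h3
  linarith

/-- **Theorem.** Let `F` be a subfield of `ℚ(ζ_N)` of degree `2 ^ n`. There is a constant `C` such
that for all `r`, all nonzero integers `d_1, ..., d_r`, the field `L = F(√d_1, ..., √d_r)`, all
integers `D ≠ 0` and all `H`, the averages over the elliptic curves `E` over `ℚ` with full rational
2-torsion of height at most `H` of the rank of the twist `E^D` over `L` and of
`4 ^ (rank E^D(L) / 2 ^ (n + r))` are at most `2 ^ (n + r) * (C + 7/2 * ω(D d_1 ... d_r))` and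
`C * 128 ^ ω(D d_1 ... d_r)`. (`ω` is the number of the prime divisors.) -/
theorem result : Tendsto (fun H : ℕ => (Fam H).card) atTop atTop ∧
    ∀ (N : ℕ) [NeZero N] (K : Type) [Field K] [NumberField K] [IsCyclotomicExtension {N} ℚ K]
      (F : IntermediateField ℚ K) (n : ℕ), Module.finrank ℚ F = 2 ^ n →
    ∃ C : ℝ, ∀ (r : ℕ) (d : Fin r → ℤ), (∀ i, d i ≠ 0) →
      ∀ (L : Type) [Field L] [Algebra F L] (x : Fin r → L), (∀ i, x i ^ 2 = (d i : L)) →
      IntermediateField.adjoin F (Set.range x) = ⊤ → ∀ D : ℤ, D ≠ 0 → ∀ H : ℕ,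
      ∑ c ∈ Fam H, (rank L D c.1 c.2 : ℝ) ≤
        2 ^ (n + r) * (C + 7 / 2 * (D * ∏ i, d i).natAbs.primeFactors.card) * (Fam H).card ∧
      ∑ c ∈ Fam H, (4 : ℝ) ^ ((rank L D c.1 c.2 : ℝ) / 2 ^ (n + r)) ≤
        C * 128 ^ (D * ∏ i, d i).natAbs.primeFactors.card * (Fam H).card := by
  classical
  refine ⟨card_tendsto, fun N _ K _ _ _ F n hn => ?_⟩
  obtain ⟨C, hC0, hC⟩ := Pool.Agent.X257.CH.avg_mq N F n hn
  refine ⟨max C (Real.logb 4 (max C 1)), fun r d hd L _ _ x hx htop D hD H => ?_⟩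
  rw [Fam_eq]
  have h1 := hC r d hd L x hx htop D hD H
  constructor
  · refine (avg_of_exp _ (fun c : ℤ × ℤ => (rank L D c.1 c.2 : ℝ)) (fun c _ => by positivity) _
      (by positivity) h1).trans ?_
    gcongr
    exact le_max_right _ _
  · refine le_trans h1 ?_
    gcongr
    exact le_max_left _ _

end Pool.Agent.Results.MP_7cad78_nt.AbelianTwoPowerFields
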