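import Mathlib
import Pool.Agent.W672.FK.Lowf
import Pool.Agent.W307.RT.Tors
import Pool.Agent.X293.CO.Sel

/-!
# Average ranks and Selmer coranks over multiquadratic fields in the ordering by the conductor

All elliptic curves `E` over `ℚ` with full rational 2-torsion, ordered by the conductor, without any
bound on the height or on the discriminant. Let `F = ℚ(√d_1, ..., √d_r)` be a multiquadratic field,
`D ≠ 0` an integer, `E^D` the twist of `E` by `D` and `s(E^D / F)` the corank of the `2 ^ ∞`-Selmer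
group of `E^D` over `F`, that is, the rank of `E^D(F)` plus the corank of `Ш(E^D / F)[2 ^ ∞]`. The
average of `2 ^ (θ s(E^D / F) / 2 ^ r)` is at most
`C |D| ^ (4 / 3) ∏ ((1 + |d_i| ^ (4 / 3)) / 2)` for every `θ < 2 / 3`, and the average of
`s(E^D / F)` is at most `2 ^ r (C + 3 log |D d_1 ... d_r|)`. The constants and the bound from which on
the estimates hold depend neither on `F` nor on `D`.
-/

set_option autoImplicit false

namespace Pool.Agent.Results.MP_7cad78_nt.AveragesByConductor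

open Finset Filter Topology

open Pool.Agent.TH841.NF.D (Sha HasDiv crk rk)

/-- the curve `y² = x³ + A x + B` over `ℚ` -/
def E (A B : ℤ) : WeierstrassCurve ℚ := ⟨0, 0, 0, (A : ℚ), (B : ℚ)⟩

/-- The prime-to-6 part of the conductor of `y² = x³ + A x + B` (there is no prime `p` with `p⁴ ∣ A`
and `p⁶ ∣ B`): the product over the primes `p ≥ 5` dividing `4 A³ + 27 B²` of `p` (multiplicative
reduction: `p ∤ A`) or `p²` (additive reduction: `p ∣ A`) -/
def Cond6 (c : ℤ × ℤ) : ℕ :=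
  ∏ p ∈ (Int.natAbs (4 * c.1 ^ 3 + 27 * c.2 ^ 2)).primeFactors.filter (fun p => 5 ≤ p),
    if (p : ℤ) ∣ c.1 then p ^ 2 else p

/-- the admissible factors: functions with values between `1` and `2 ^ 8 * 3 ^ 5`, for instance the
part of the conductor composed of the primes 2 and 3, or `f = 1` -/
def Factor (f : ℤ × ℤ → ℕ) : Prop := ∀ c, 1 ≤ f c ∧ f c ≤ 2 ^ 8 * 3 ^ 5

/-- The pairs `(A, B)` of integers such that `4 A³ + 27 B² ≠ 0`, there is no prime `p` with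
`p⁴ ∣ A` and `p⁶ ∣ B`, `Z/2 x Z/2` embeds in the group of the rational points of
`y² = x³ + A x + B`, and `f * Cond6 ≤ Z` (for a suitable factor `f`: the conductor is at most `Z`).
Every elliptic curve over `ℚ` with full rational 2-torsion is isomorphic to `E A B` for exactly one
pair with the first three properties. -/
def Fam (f : ℤ × ℤ → ℕ) (Z : ℕ) : Set (ℤ × ℤ) :=
  {c : ℤ × ℤ | 4 * c.1 ^ 3 + 27 * c.2 ^ 2 ≠ 0 ∧
    (∀ p : ℕ, p.Prime → ¬ ((p : ℤ) ^ 4 ∣ c.1 ∧ (p : ℤ) ^ 6 ∣ c.2)) ∧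
    (∃ g : ZMod 2 × ZMod 2 →+ (E c.1 c.2).toAffine.Point, Function.Injective g) ∧
    f c * Cond6 c ≤ Z}

/-- the average of `g` over the curves of size at most `Z` -/
noncomputable def average (f : ℤ × ℤ → ℕ) (g : ℤ × ℤ → ℝ) (Z : ℕ) : ℝ :=
  (∑ᶠ c ∈ Fam f Z, g c) / (Fam f Z).ncard

/-- `F = ℚ(√d_1, ..., √d_r)`, the `d_i` are nonzero integers -/
def IsField {r : ℕ} (d : Fin r → ℤ) (F : Type) [Field F] [NumberField F] : Prop :=
  (∀ i, d i ≠ 0) ∧
    ∃ x : Fin r → F, (∀ i, x i ^ 2 = (d i : F)) ∧ IntermediateField.adjoin ℚ (Set.range x) = ⊤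

/-- the twist `y² = x³ + D² A x + D³ B` by `D` of `y² = x³ + A x + B` over `F`, `c = (A, B)` -/
def twistF (F : Type) [Field F] (D : ℤ) (c : ℤ × ℤ) : WeierstrassCurve F :=
  ⟨0, 0, 0, ((D ^ 2 * c.1 : ℤ) : F), ((D ^ 3 * c.2 : ℤ) : F)⟩

/-- The corank of the `2 ^ ∞`-Selmer group of the twist by `D` over `F`: the rank `rk` of the group
of the points over `F` plus the corank `crk` of the 2-primary part of the Tate-Shafarevich group over
`F` (the largest `q` such that it has a subgroup isomorphic to `(ℚ₂ / ℤ₂) ^ q`). -/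
noncomputable def selmerCorank (F : Type) [Field F] [NumberField F] (D : ℤ) (c : ℤ × ℤ) : ℕ :=
  rk (twistF F D c) + crk (twistF F D c)

/-- the property without the size -/
def Pr (c : ℤ × ℤ) : Prop := 4 * c.1 ^ 3 + 27 * c.2 ^ 2 ≠ 0 ∧
    (∀ p : ℕ, p.Prime → ¬ ((p : ℤ) ^ 4 ∣ c.1 ∧ (p : ℤ) ^ 6 ∣ c.2)) ∧
    (∃ g : ZMod 2 × ZMod 2 →+ (E c.1 c.2).toAffine.Point, Function.Injective g)

lemma good : Pool.Agent.Y728.RC.Dn.Good Pr where
  ok c h := ⟨Pool.Agent.Y679.Cr.isMin_of h.1 h.2.1,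
    Pool.Agent.Y679.Cr.full_of (Pool.Agent.W307.RT.tors_iff.2 h.2.2)⟩
  cv H c hc := by
    classical
    unfold Pool.Agent.W307.RT.Cv at hc
    obtain ⟨-, h1, -, -, h2, h3⟩ := mem_filter.1 hc
    exact ⟨h1, h2, Pool.Agent.W307.RT.tors_iff.1 h3⟩
  low := Pool.Agent.W672.FK.lowf

lemma cond_eq (c : ℤ × ℤ) : Pool.Agent.Y679.Cr.cs c = Cond6 c := Pool.Agent.X293.CO.cs_K6 c

lemma bdd {f : ℤ × ℤ → ℕ} (hf : Factor f) : Pool.Agent.Y728.RC.Dn.Bdd f :=
  fun c => ⟨(hf c).1, (hf c).2.trans (by norm_num)⟩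

lemma Fam_eq (f : ℤ × ℤ → ℕ) (Z : ℕ) : Fam f Z = Pool.Agent.Y679.Cr.Gm Pr f Z := by
  ext c
  unfold Fam Pool.Agent.Y679.Cr.Gm
  rw [Set.mem_ofPred_eq, Set.mem_ofPred_eq, cond_eq]
  exact ⟨fun h => ⟨⟨h.1, h.2.1, h.2.2.1⟩, h.2.2.2⟩, fun h => ⟨h.1.1, h.1.2.1, h.1.2.2, h.2⟩⟩

lemma Pr_iff (c : ℤ × ℤ) : Pr c ↔ Pool.Agent.X293.CO.dsc c ≠ 0 ∧ Pool.Agent.X293.CO.Red c ∧
    Pool.Agent.W307.RT.HasT 2 (Pool.Agent.W307.RT.Sh c.1 c.2) := by
  have h : Pool.Agent.W307.RT.HasT 2 (Pool.Agent.W307.RT.Sh c.1 c.2) ↔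
    ∃ f : ZMod 2 × ZMod 2 →+ (E c.1 c.2).toAffine.Point, Function.Injective f :=
    Pool.Agent.W307.RT.tors_iff
  rw [h]
  exact Iff.rfl

/-- from finite sums to averages -/
lemma average_le {f : ℤ × ℤ → ℕ} (hf : Factor f) {g : ℤ × ℤ → ℝ} {B : ℝ} {Z : ℕ} (hB : 0 ≤ B)
    (h : ∀ S : Finset (ℤ × ℤ), (S : Set (ℤ × ℤ)) = Fam f Z → ∑ c ∈ S, g c ≤ B * S.card) :
    average f g Z ≤ B := by
  have hfin : (Fam f Z).Finite := by
    rw [Fam_eq]
    exact Pool.Agent.Y728.RC.Dn.Gm_fin good (bdd hf) Z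
  obtain ⟨S, hS⟩ : ∃ S : Finset (ℤ × ℤ), (S : Set (ℤ × ℤ)) = Fam f Z :=
    ⟨hfin.toFinset, hfin.coe_toFinset⟩
  unfold average
  rw [← hS, finsum_mem_coe_finset, Set.ncard_coe_finset]
  exact div_le_of_le_mul₀ (Nat.cast_nonneg _) hB (h S hS)

lemma half_le {x : ℝ} (hx : 1 ≤ x) :
    Real.log ((1 + x ^ ((4 : ℝ) / 3)) / 2) ≤ 4 / 3 * Real.log x := by
  rw [← Real.log_rpow (by linarith)]
  have h1 : 1 ≤ x ^ ((4 : ℝ) / 3) := Real.one_le_rpow hx (by norm_num)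
  exact Real.log_le_log (by linarith) (by linarith)

/-- **Theorem.** Order the elliptic curves over `ℚ` with full rational 2-torsion by the conductor
(times an arbitrary factor as in `Factor`), with no bound on the height. There are finitely many
curves of size at most `Z` and their number tends to infinity with `Z`. The corank of the 2-primary
part of `Ш(E^D / F)` is the largest `q` such that it contains `(ℚ₂ / ℤ₂) ^ q`, and it exists. For
every `θ < 2 / 3` there are `C` and `Z0` such that for all `r` and all nonzero integers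
`d_1, ..., d_r`, for `F = ℚ(√d_1, ..., √d_r)`, all integers `D ≠ 0` and all `Z ≥ Z0` the average of
`2 ^ (θ s(E^D / F) / 2 ^ r)`, `s` the corank of the `2 ^ ∞`-Selmer group, over the curves of size at
most `Z` is at most `C |D| ^ (4 / 3) ∏ ((1 + |d_i| ^ (4 / 3)) / 2)`. In particular the average of
`s(E^D / F)` is at most `2 ^ r (C + 3 log |D d_1 ... d_r|)`. -/
theorem result :
    (∀ f : ℤ × ℤ → ℕ, Factor f →
      (∀ Z : ℕ, (Fam f Z).Finite) ∧ Tendsto (fun Z : ℕ => (Fam f Z).ncard) atTop atTop) ∧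
    (∀ (r : ℕ) (d : Fin r → ℤ) (F : Type) [Field F] [NumberField F], IsField d F →
      ∀ D : ℤ, D ≠ 0 → ∀ (f : ℤ × ℤ → ℕ) (Z : ℕ), ∀ c ∈ Fam f Z,
        HasDiv (twistF F D c) (crk (twistF F D c)) ∧
        ∀ q : ℕ, HasDiv (twistF F D c) q → q ≤ crk (twistF F D c)) ∧
    (∀ θ : ℝ, 0 < θ → θ < 2 / 3 → ∃ (C : ℝ) (Z0 : ℕ), ∀ (r : ℕ) (d : Fin r → ℤ) (F : Type)
      [Field F] [NumberField F], IsField d F → ∀ D : ℤ, D ≠ 0 → ∀ f : ℤ × ℤ → ℕ, Factor f →
      ∀ Z : ℕ, Z0 ≤ Z →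
        average f (fun c => (2 : ℝ) ^ (θ * ((selmerCorank F D c : ℝ) / 2 ^ r))) Z ≤
          C * (|(D : ℝ)| ^ ((4 : ℝ) / 3) * ∏ i, ((1 + |(d i : ℝ)| ^ ((4 : ℝ) / 3)) / 2))) ∧
    ∃ (C : ℝ) (Z0 : ℕ), ∀ (r : ℕ) (d : Fin r → ℤ) (F : Type)
      [Field F] [NumberField F], IsField d F → ∀ D : ℤ, D ≠ 0 → ∀ f : ℤ × ℤ → ℕ, Factor f →
      ∀ Z : ℕ, Z0 ≤ Z → average f (fun c => (selmerCorank F D c : ℝ)) Z ≤
        2 ^ r * (C + 3 * Real.log |((D * ∏ i, d i : ℤ) : ℝ)|) := by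
  classical
  refine ⟨fun f hf => ⟨fun Z => ?_, ?_⟩, fun r d F _ _ hF D hD f Z c hc => ?_,
    fun θ hθ0 hθ => ?_, ?_⟩
  · rw [Fam_eq]
    exact Pool.Agent.Y728.RC.Dn.Gm_fin good (bdd hf) Z
  · simp only [Fam_eq]
    exact Pool.Agent.Y728.RC.Dn.Gm_tendsto good (bdd hf)
  · obtain ⟨hd, hF⟩ := hF
    have hT := Pool.Agent.W307.RT.tors_iff.2 hc.2.2.1
    exact (Pool.Agent.X293.CO.crk_mq hF hd hc.1 hT hD).1
  · obtain ⟨C, Z0, hC, h⟩ := Pool.Agent.X293.CO.crk_avg good Pr_iff hθ0 hθ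
    refine ⟨C, Z0, fun r d F _ _ hF D hD f hf Z hZ => ?_⟩
    obtain ⟨hd, hF⟩ := hF
    refine average_le hf (by positivity) fun S hS => ?_
    rw [Fam_eq] at hS
    exact h F r d hF hd D hD f (bdd hf) Z hZ S hS
  · obtain ⟨C, Z0, hC, h⟩ := Pool.Agent.X293.CO.crk_avg good Pr_iff (θ := 13 / 20) (by norm_num)
      (by norm_num)
    refine ⟨3 * Real.log (max C 1), Z0, fun r d F _ _ hF D hD f hf Z hZ => ?_⟩
    obtain ⟨hd, hF⟩ := hF
    have hD1 : (1 : ℝ) ≤ |(D : ℝ)| := by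
      exact_mod_cast Int.one_le_abs hD
    have hd1 : ∀ i, (1 : ℝ) ≤ |(d i : ℝ)| := fun i => by
      exact_mod_cast Int.one_le_abs (hd i)
    have hL1 : 0 ≤ Real.log |(D : ℝ)| := Real.log_nonneg hD1
    have hL2 : 0 ≤ ∑ i, Real.log |(d i : ℝ)| := sum_nonneg fun i _ => Real.log_nonneg (hd1 i)
    have hlC : 0 ≤ Real.log (max C 1) := Real.log_nonneg (le_max_right _ _)
    have hL : Real.log |((D * ∏ i, d i : ℤ) : ℝ)| =
        Real.log |(D : ℝ)| + ∑ i, Real.log |(d i : ℝ)| := by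
      rw [Int.cast_mul, abs_mul, Int.cast_prod, Finset.abs_prod, Real.log_mul
        (by linarith : |(D : ℝ)| ≠ 0) (prod_pos fun i _ => by linarith [hd1 i]).ne',
        Real.log_prod (fun i _ => by linarith [hd1 i])]
    rw [hL]
    refine average_le hf (by positivity) fun S hS => ?_
    rw [Fam_eq] at hS
    have hB : 0 < |(D : ℝ)| ^ ((4 : ℝ) / 3) * ∏ i, ((1 + |(d i : ℝ)| ^ ((4 : ℝ) / 3)) / 2) := by
      refine mul_pos (Real.rpow_pos_of_pos (by linarith) _) (prod_pos fun i _ => by positivity)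
    have hlog : Real.log (|(D : ℝ)| ^ ((4 : ℝ) / 3) *
        ∏ i, ((1 + |(d i : ℝ)| ^ ((4 : ℝ) / 3)) / 2)) ≤
        4 / 3 * (Real.log |(D : ℝ)| + ∑ i, Real.log |(d i : ℝ)|) := by
      rw [Real.log_mul (Real.rpow_pos_of_pos (by linarith) _).ne'
        (prod_pos fun i _ => by positivity).ne', Real.log_rpow (by linarith),
        Real.log_prod (fun i _ => by positivity), mul_add, mul_sum]
      gcongr with i _
      exact half_le (hd1 i)
    have h1 := h F r d hF hd D hD f (bdd hf) Z hZ S hS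
    have h2 := Pool.Agent.X293.CO.of_exp S (fun c => (selmerCorank F D c : ℝ)) (r := r)
      (le_max_right C 1) hB hlog (add_nonneg hL1 hL2) (h1.trans (by
        refine mul_le_mul_of_nonneg_right (mul_le_mul_of_nonneg_right (le_max_left _ _) hB.le)
          (Nat.cast_nonneg _)))
    refine h2.trans (le_of_eq ?_)
    ring

end Pool.Agent.Results.MP_7cad78_nt.AveragesByConductor
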