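import Mathlib
import Pool.Agent.X253.CF.Fg
import Pool.Agent.X253.CF.AvG

/-!
# The ranks over `ℚ(√-3)` of all the cubic twists `y² + D y = x³`

`K` is the field of third roots of unity, `E_D : y² + D y = x³`, and `D` runs through the cube-free
`D = 1` modulo `3` of `𝓞 K` whose norm is not `1` modulo `9`, ordered by the norm; `N(X)` is the number
of the `D` of norm at most `X`, which is at least `c X`.  With
`prob r = ∏_{i ≥ 0} (1 - 3^{-(2 i + 1)}) / ((3 - 1) (9 - 1) ⋯ (3 ^ r - 1))` (these numbers sum to one),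
for all large `X`:

* for every `R` the number of the `D` of norm at most `X` with rank more than `2 R` is at most
  `(1 - prob 0 - ⋯ - prob R) N(X) + X (log X) ^ (-1 / 200)`; so the rank is `0` for a lower density of
  at least `0.639`, at most `2` for `0.9585` and at most `4` for `0.9984`;
* the number of the `D` with `E_D(K)` finite and `Ш(E_D / K)[3^∞] = 0` is `prob 0 N(X)` up to
  `X (log X) ^ (-1 / 200)`, so they have a density, `prob 0 = 0.639...`.

The proof (project CF, `Pool/Agent/X253/CF`): the rank over `ℤ` is at most `2 r`, where `3 ^ (r + 1)` is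
the order of the Selmer group of the isogeny `√-3`, which is the kernel of the Laplacian with weights of
the cubic residue symbols of the prime divisors of `D`; the distribution of `r` for the squarefree `D`
is the subject of `MP_a3f657_nt.CubicTwistsThreeInfinity` of the starting library, and it is determined
here, with an error term which is uniform in `r`, for the sets of primes containing a given set `T`
with the weights `2` on `T`, then summed over `T`.
-/

set_option autoImplicit false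

namespace Pool.Agent.Results.MP_7cad78_nt.CubicTwistsRankLaw

open NumberField WeierstrassCurve
open Pool.Agent.TH841.NF.D (Sha)
open scoped Classical

/-- The curve `E_D : y² + D y = x³`. -/
def curve {K : Type} [Field K] (D : K) : WeierstrassCurve K := ⟨0, 0, D, 0, 0⟩

variable {K : Type} [Field K] [NumberField K]

/-- `D` is cube-free and `1` modulo `3`, and its norm is not `1` modulo `9`. -/
def InClass (D : 𝓞 K) : Prop :=
  (3 : 𝓞 K) ∣ D - 1 ∧ (∀ p : 𝓞 K, Prime p → ¬ p ^ 3 ∣ D) ∧ ¬ (9 : ℤ) ∣ Algebra.norm ℤ D - 1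

/-- The `D` of the class of norm at most `X`. -/
def upTo (K : Type) [Field K] [NumberField K] (X : ℕ) : Set (𝓞 K) :=
  {D : 𝓞 K | Algebra.norm ℤ D ≤ X ∧ InClass D}

/-- `E_D(K)` is finite and the `3`-primary part of `Ш(E_D / K)` is trivial. -/
def FiniteAndTrivial (D : 𝓞 K) : Prop :=
  Finite (curve (D : K)).toAffine.Point ∧ ∀ (n : ℕ) (x : Sha (curve (D : K))), 3 ^ n • x = 0 → x = 0

/-- `∏_{i ≥ 0} (1 - 3^{-(2 i + 1)}) / ((3 - 1) (9 - 1) ⋯ (3 ^ r - 1))`. -/
noncomputable def prob (r : ℕ) : ℝ :=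
  (∏' i : ℕ, (1 - (1 / 3 : ℝ) ^ (2 * i + 1))) / ∏ i ∈ Finset.range r, ((3 : ℝ) ^ (i + 1) - 1)

/-- The rank of the finitely generated group `E_D(K)` over `ℤ`. -/
noncomputable def rank (D : K) : ℕ := Module.finrank ℤ (curve D).toAffine.Point

/-- The error term `X (log X) ^ (-1 / 200)`. -/
noncomputable def err (X : ℕ) : ℝ := (Real.log X) ^ (-(1 / 200) : ℝ) * X

/-- **The ranks of the cubic twists.** -/
theorem result (K : Type) [Field K] [NumberField K] [IsCyclotomicExtension {3} ℚ K] :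
    (∃ c : ℝ, 0 < c ∧ ∃ X₀ : ℕ, ∀ X : ℕ, X₀ ≤ X → c * X ≤ ((upTo K X).ncard : ℝ)) ∧
    (∀ D : 𝓞 K, InClass D → Module.Finite ℤ (curve (D : K)).toAffine.Point) ∧
    (∃ X₀ : ℕ, ∀ X : ℕ, X₀ ≤ X → ∀ R : ℕ,
      ({D : 𝓞 K | Algebra.norm ℤ D ≤ X ∧ InClass D ∧ 2 * R < rank (D : K)}.ncard : ℝ) ≤
        (1 - ∑ r ∈ Finset.range (R + 1), prob r) * ((upTo K X).ncard : ℝ) + err X) ∧
    (∃ X₀ : ℕ, ∀ X : ℕ, X₀ ≤ X →
      |({D : 𝓞 K | Algebra.norm ℤ D ≤ X ∧ InClass D ∧ FiniteAndTrivial D}.ncard : ℝ) -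
        prob 0 * ((upTo K X).ncard : ℝ)| ≤ err X) ∧
    HasSum prob 1 ∧ 0.639 < prob 0 ∧ prob 0 < 0.6391 ∧
    0.9585 < ∑ r ∈ Finset.range 2, prob r ∧ 0.9984 < ∑ r ∈ Finset.range 3, prob r := by
  obtain ⟨h1, -⟩ := Pool.Agent.X253.CF.prop_exact K
  obtain ⟨ω, hω⟩ : ∃ ω : K, ω ^ 2 + ω + 1 = 0 := by
    obtain ⟨⟨j, hj⟩, -⟩ := Pool.Agent.Y455.CTK.jex K
    refine ⟨((j Pool.Agent.Y692.QS.w : 𝓞 K) : K), ?_⟩
    have hww : (Pool.Agent.Y692.QS.w : Pool.Agent.Y692.QS.Ei) ^ 2 + Pool.Agent.Y692.QS.w + 1 = 0 := by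
      decide
    have h : (j Pool.Agent.Y692.QS.w) ^ 2 + j Pool.Agent.Y692.QS.w + 1 = 0 := by
      rw [← map_pow, ← map_one j, ← map_add, ← map_add, hww, map_zero]
    have h' := congrArg (fun x : 𝓞 K => (x : K)) h
    simpa using h'
  obtain ⟨-, -, -, -, h5, h6, h7⟩ := Pool.Agent.X253.CF.finalCF K ω hω
  obtain ⟨h8, h9⟩ := Pool.Agent.X253.CF.prob_num h5
  obtain ⟨X₀, hX₀⟩ := Filter.eventually_atTop.1 (Pool.Agent.X253.CF.rateCF K ω hω)
  exact ⟨h1, fun D hD => Pool.Agent.X253.CF.fg_CF K hD, ⟨X₀, fun X hX => (hX₀ X hX).2.2⟩,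
    ⟨X₀, fun X hX => (hX₀ X hX).2.1⟩, h7, h5, h6, h8, h9⟩

end Pool.Agent.Results.MP_7cad78_nt.CubicTwistsRankLaw
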