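import Mathlib
import Pool.Agent.X99.CK.Mq
import Pool.Agent.X99.RL.Deg

/-!
# MP_7cad78_nt: the ranks over real multiquadratic fields of the twists of `X_0(49)` by sums of two
squares
-/

set_option autoImplicit false
set_option linter.unusedSectionVars false
set_option linter.style.haveILetI false

open Filter

namespace Pool.Agent.Results.MP_7cad78_nt.RankTailsMultiquadratic

/-- the odd squarefree sums of two squares -/
def 𝒟 : Set ℕ := {D : ℕ | Squarefree D ∧ Odd D ∧ ∃ x y : ℕ, D = x ^ 2 + y ^ 2}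

/-- the twist `y² = x³ - 35 D² x - 98 D³` of `X_0(49)` over the field `F` -/
def E (F : Type) [Field F] (D : ℕ) : WeierstrassCurve F :=
  { a₁ := 0, a₂ := 0, a₃ := 0, a₄ := ((-35 * (D : ℤ) ^ 2 : ℤ) : F), a₆ := ((-98 * (D : ℤ) ^ 3 : ℤ) : F) }

open Classical in
/-- the rank of `E_D(F)` -/
noncomputable def rank (F : Type) [Field F] (D : ℕ) : ℕ := Module.finrank ℤ (E F D).toAffine.Point

/-- `F = ℚ(√d₁, …, √dₙ)` with `dᵢ ∈ 𝒟` independent modulo squares -/
def IsMq (F : Type) [Field F] [NumberField F] {n : ℕ} (d : Fin n → ℕ) : Prop :=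
  (∀ i, d i ∈ 𝒟) ∧ (∀ T : Finset (Fin n), T.Nonempty → ¬ IsSquare (∏ i ∈ T, d i)) ∧
    ∃ x : Fin n → F, (∀ i, x i ^ 2 = (d i : F)) ∧
      IntermediateField.adjoin ℚ (Set.range x) = ⊤

/-- the proportion of the members of `𝒟` up to `X` which are in `S` -/
noncomputable def proportion (S : Set ℕ) (X : ℕ) : ℝ :=
  ({D : ℕ | D ∈ 𝒟 ∧ D ≤ X ∧ D ∈ S}.ncard : ℝ) / ({D : ℕ | D ∈ 𝒟 ∧ D ≤ X}.ncard : ℝ)

/-- the probabilities `c / ∏_{i ≤ k} (2^i - 1)`, `c = ∏_{i ≥ 0} (1 - 2^(-2i-1))` -/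
noncomputable def prob (k : ℕ) : ℝ :=
  (∏' i : ℕ, (1 - (1 / 2 : ℝ) ^ (2 * i + 1))) / ∏ i ∈ Finset.Icc 1 k, ((2 : ℝ) ^ i - 1)

/-- the probability that the sum of `N` independent variables with the law `prob` is at most `t` -/
noncomputable def P (N t : ℕ) : ℝ :=
  ∑ r ∈ (Fintype.piFinset fun _ : Fin N => Finset.range (t + 1)).filter fun r => ∑ i, r i ≤ t,
    ∏ i, prob (r i)

open Pool.Agent.X99.CK Pool.Agent.X99.C49

theorem cf_prod (k : ℕ) : Pool.Agent.Y697.PQ.cf k = 1 / ∏ i ∈ Finset.Icc 1 k, ((2 : ℝ) ^ i - 1) := by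
  induction k with
  | zero => simp [Pool.Agent.Y697.PQ.cf]
  | succ k ih =>
    rw [Finset.prod_Icc_succ_top (by omega), Pool.Agent.Y697.PQ.cf, ih, div_div]

theorem prob_eq (k : ℕ) : prob k = pr k := by
  unfold prob pr
  rw [cf_prod, Pool.Agent.Y697.CJ.gi_eq, mul_one_div]
  rfl

theorem mem_𝒟 {D : ℕ} : D ∈ 𝒟 ↔ Fam D := fam_two D

theorem proportion_eq (S : Set ℕ) (X : ℕ) : proportion S X = pX S X := by
  classical
  unfold proportion pX
  congr 1
  · congr 1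
    rw [← Set.ncard_coe_finset]
    congr 1
    ext D
    rw [Finset.mem_coe, Finset.mem_filter, Finset.mem_Icc]
    constructor
    · rintro ⟨h1, h2, h3⟩
      exact ⟨⟨Nat.pos_of_ne_zero (mem_𝒟.1 h1).1.ne_zero, h2⟩, mem_𝒟.1 h1, h3⟩
    · rintro ⟨⟨-, h2⟩, h1, h3⟩
      exact ⟨mem_𝒟.2 h1, h2, h3⟩
  · congr 1
    rw [← Set.ncard_coe_finset]
    congr 1
    ext D
    rw [Finset.mem_coe, Finset.mem_filter, Finset.mem_Icc]
    constructor
    · rintro ⟨h1, h2⟩
      exact ⟨⟨Nat.pos_of_ne_zero (mem_𝒟.1 h1).1.ne_zero, h2⟩, mem_𝒟.1 h1⟩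
    · rintro ⟨⟨-, h2⟩, h1⟩
      exact ⟨mem_𝒟.2 h1, h2⟩

/-- the set of the twists -/
theorem twists {F : Type} [Field F] [NumberField F] {n : ℕ} {d : Fin n → ℕ} (h : IsMq F d) :
    Module.finrank ℚ F = 2 ^ n ∧ ∃ 𝓜 : Finset ℕ, (∀ m ∈ 𝓜, Fam m) ∧ 𝓜.card = 2 ^ n ∧
      ∀ D, Fam D → rank F D ≤ 2 * ∑ m ∈ 𝓜, kk (Pool.Agent.X99.GJ.star m D) := by
  classical
  obtain ⟨hd, hind, x, hx, hgen⟩ := h
  have hF : ∀ i, Fam (d i) := fun i => mem_𝒟.1 (hd i)
  refine ⟨?_, ?_⟩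
  · refine Pool.Agent.X99.RL.deg_of_ind n ℚ F (fun i => (d i : ℤ)) x (fun i => by
      rw [hx i]; push_cast; rfl) hgen fun T hT y hy => hind T hT ?_
    have h1 : IsSquare ((∏ i ∈ T, d i : ℕ) : ℚ) := ⟨y, by
      rw [← pow_two, hy]
      push_cast
      rfl⟩
    exact Rat.isSquare_natCast_iff.1 h1
  · choose m hm using fun T => sqf_prod hF T
    have hinj : Function.Injective m := by
      intro T T' hTT
      by_contra hne
      obtain ⟨-, k, hk, h1⟩ := hm T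
      obtain ⟨-, k', hk', h2⟩ := hm T'
      have h3 : (∏ i ∈ T, d i) * (∏ i ∈ T', d i) =
          (∏ i ∈ symmDiff T T', d i) * (∏ i ∈ T ∩ T', d i) ^ 2 := by
        have e1 : ∏ i ∈ T, d i = (∏ i ∈ T \ T', d i) * ∏ i ∈ T ∩ T', d i := by
          rw [mul_comm, ← Finset.prod_inter_mul_prod_sdiff T T' d]
        have e2 : ∏ i ∈ T', d i = (∏ i ∈ T' \ T, d i) * ∏ i ∈ T ∩ T', d i := by
          rw [mul_comm, ← Finset.prod_inter_mul_prod_sdiff T' T d, Finset.inter_comm]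
        have e3 : ∏ i ∈ symmDiff T T', d i = (∏ i ∈ T \ T', d i) * ∏ i ∈ T' \ T, d i := by
          rw [symmDiff_def, Finset.sup_eq_union, Finset.prod_union]
          exact disjoint_sdiff_sdiff
        rw [e3]
        nth_rewrite 1 [e1]
        nth_rewrite 1 [e2]
        ring
      refine hind (symmDiff T T') ?_ ?_
      · rw [Finset.nonempty_iff_ne_empty]
        intro h4
        exact hne (symmDiff_eq_bot.1 h4)
      · have h4 : (∏ i ∈ T ∩ T', d i) ≠ 0 :=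
          Finset.prod_ne_zero_iff.2 fun i _ => (hF i).1.ne_zero
        have h5 : (∏ i ∈ symmDiff T T', d i) * (∏ i ∈ T ∩ T', d i) ^ 2 = (m T * k * k') ^ 2 := by
          rw [← h3, h1, h2, hTT]
          ring
        have h6 : IsSquare (((∏ i ∈ symmDiff T T', d i : ℕ)) : ℚ) := by
          refine ⟨((m T * k * k' : ℕ) : ℚ) / ((∏ i ∈ T ∩ T', d i : ℕ) : ℚ), ?_⟩
          have h7 : ((∏ i ∈ T ∩ T', d i : ℕ) : ℚ) ≠ 0 := by exact_mod_cast h4
          rw [div_mul_div_comm, eq_div_iff (mul_ne_zero h7 h7)]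
          have h8 : (((∏ i ∈ symmDiff T T', d i) * (∏ i ∈ T ∩ T', d i) ^ 2 : ℕ) : ℚ) =
              (((m T * k * k') ^ 2 : ℕ) : ℚ) := by rw [h5]
          push_cast at h8 ⊢
          linear_combination h8
        exact Rat.isSquare_natCast_iff.1 h6
    refine ⟨Finset.univ.image m, fun a ha => ?_, ?_, fun D hD => ?_⟩
    · obtain ⟨T, -, rfl⟩ := Finset.mem_image.1 ha
      exact (hm T).1
    · rw [Finset.card_image_of_injective _ hinj, Finset.card_univ, Fintype.card_finset,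
        Fintype.card_fin]
    · rw [Finset.sum_image fun a _ b _ h => hinj h, Finset.mul_sum]
      exact rank_mq F x hF hx hgen hm hD

theorem P_eq (N t : ℕ) : P N t = ps N t := by
  unfold P ps
  exact Finset.sum_congr rfl fun r _ => Finset.prod_congr rfl fun i _ => prob_eq _

/-- the first `N` members -/
theorem P_facts (N : ℕ) : (∀ t, P N t ≤ 1) ∧ Monotone (P N) ∧ Tendsto (P N) atTop (nhds 1) := by
  have hF : ∀ m ∈ F0 N, Fam m := fun m hm => F0_fam hm
  have hl : ∀ t, Tendsto (pX {D | ∑ m ∈ F0 N, kk (Pool.Agent.X99.GJ.star m D) ≤ t}) atTop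
      (nhds (P N t)) := by
    intro t
    have h := law_sum hF t
    rw [F0_card] at h
    rw [P_eq]
    exact h
  have h1 : ∀ t, P N t ≤ 1 := by
    intro t
    refine le_of_tendsto (hl t) ?_
    filter_upwards [eventually_ge_atTop 1] with X hX
    rw [← pX_univ hX]
    exact pX_mono (fun D _ _ => trivial) X
  have h2 : Monotone (P N) := by
    intro t t' htt
    refine le_of_tendsto_of_tendsto (hl t) (hl t') (Eventually.of_forall fun X => ?_)
    exact pX_mono (fun D _ h => le_trans h htt) X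
  refine ⟨h1, h2, ?_⟩
  have h3 : ∀ B : ℕ, (∑ r ∈ Finset.range (B + 1), pr r) ^ N ≤ P N (N * B) := by
    intro B
    have h4 := lawBox (F0 N) hF (fun _ => Finset.range (B + 1))
    rw [Finset.prod_const, F0_card] at h4
    refine le_of_tendsto_of_tendsto h4 (hl _) (Eventually.of_forall fun X => ?_)
    refine pX_mono (fun D _ h => ?_) X
    show ∑ m ∈ F0 N, kk (Pool.Agent.X99.GJ.star m D) ≤ N * B
    refine (Finset.sum_le_sum (g := fun _ => B) fun m hm => ?_).trans ?_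
    · have := Finset.mem_range.1 (h m hm)
      omega
    · rw [Finset.sum_const, F0_card, smul_eq_mul]
  have h5 : Tendsto (fun B : ℕ => (∑ r ∈ Finset.range (B + 1), pr r) ^ N) atTop (nhds 1) := by
    have h6 := ((tendsto_add_atTop_iff_nat 1).2 hasSum_pr.tendsto_sum_nat).pow N
    rwa [one_pow] at h6
  rw [Metric.tendsto_atTop]
  intro ε hε
  obtain ⟨B, hB⟩ := Metric.tendsto_atTop.1 h5 ε hε
  refine ⟨N * B, fun t ht => ?_⟩
  have h6 := hB B le_rfl
  have h7 := h3 B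
  have h8 := h2 ht
  have h9 := h1 t
  rw [Real.dist_eq, abs_lt] at h6 ⊢
  constructor <;> linarith [h6.1, h6.2]

/-- **Ranks over multiquadratic fields.** Let `F = ℚ(√d₁, …, √dₙ)` with `dᵢ ∈ 𝒟` (odd squarefree sums
of two squares) independent modulo squares, and `E_D : y² = x³ - 35 D² x - 98 D³`, `D ∈ 𝒟`.
(1) `[F : ℚ] = 2 ^ n`, and for every `t` the proportion of the `D ∈ 𝒟` with `rank E_D(F) ≤ 2 t` has lower
limit at least `P (2 ^ n) t`, the probability that the sum of `2 ^ n` independent variables with the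
law `prob` is at most `t`; so the ranks over `F` are tight.
(2) `prob` is a probability distribution, with mean `μ` and `2 μ < 1.53`; `P N` increases to `1`.
(3) For every `ε > 0` there is an `n₀` such that for all these fields with `n ≥ n₀` the proportion of
the `D ∈ 𝒟` with `rank E_D(F) ≤ (2 μ + ε) [F : ℚ]` has lower limit at least `1 - ε`. -/
theorem result :
    (∀ (n : ℕ) (d : Fin n → ℕ) (F : Type) [Field F] [NumberField F], IsMq F d →
      Module.finrank ℚ F = 2 ^ n ∧ ∀ (t : ℕ) (ε : ℝ), 0 < ε → ∀ᶠ X : ℕ in atTop,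
        P (2 ^ n) t - ε ≤ proportion {D | rank F D ≤ 2 * t} X) ∧
    ((∀ k, 0 < prob k) ∧ HasSum prob 1 ∧ (Summable fun k : ℕ => (k : ℝ) * prob k) ∧
      2 * ∑' k : ℕ, (k : ℝ) * prob k < 1.53 ∧
      ∀ N, Monotone (P N) ∧ Tendsto (P N) atTop (nhds 1)) ∧
    ∀ ε : ℝ, 0 < ε → ∃ n₀ : ℕ, ∀ n : ℕ, n₀ ≤ n → ∀ (d : Fin n → ℕ) (F : Type) [Field F]
      [NumberField F], IsMq F d → ∀ᶠ X : ℕ in atTop,
        1 - ε ≤ proportion {D | (rank F D : ℝ) ≤
          (2 * ∑' k : ℕ, (k : ℝ) * prob k + ε) * (Module.finrank ℚ F : ℝ)} X := by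
  have hpe : prob = pr := funext prob_eq
  have hb := (Pool.Agent.Y948.CQ.c2_main Pool.Agent.Y697.PQ.gi Pool.Agent.Y697.CJ.gi_eq).2
  have hmu : ∑' k : ℕ, (k : ℝ) * prob k = mu := by rw [hpe]; rfl
  refine ⟨fun n d F _ _ hF => ?_, ⟨fun k => ?_, ?_, ?_, ?_, fun N => (P_facts N).2⟩, fun ε hε => ?_⟩
  · obtain ⟨h1, 𝓜, h2, h3, h4⟩ := twists hF
    refine ⟨h1, fun t ε hε => ?_⟩
    have h5 := law_sum h2 t
    rw [h3, ← P_eq] at h5
    filter_upwards [h5.eventually (lt_mem_nhds (sub_lt_self _ hε))] with X hX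
    rw [proportion_eq]
    refine hX.le.trans (pX_mono (fun D hD h => ?_) X)
    have h6 : ∑ m ∈ 𝓜, kk (Pool.Agent.X99.GJ.star m D) ≤ t := h
    exact (h4 D hD).trans (by omega)
  · rw [hpe]
    exact mul_pos hb.1 (Pool.Agent.Y697.PQ.cf_pos k)
  · rw [hpe]
    exact hasSum_pr
  · rw [hpe]
    exact summ_mu1
  · rw [hmu]
    exact mu_lt
  · obtain ⟨N₀, hN⟩ := sum_law (half_pos hε)
    refine ⟨N₀, fun n hn d F _ _ hF => ?_⟩
    obtain ⟨h1, 𝓜, h2, h3, h4⟩ := twists hF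
    have h5 : N₀ ≤ 𝓜.card := by
      rw [h3]
      exact hn.trans Nat.lt_two_pow_self.le
    filter_upwards [hN 𝓜 h2 h5] with X hX
    rw [proportion_eq, hmu, h1]
    refine le_trans (by linarith) (hX.trans (pX_mono (fun D hD h => ?_) X))
    have h6 : ∑ m ∈ 𝓜, (kk (Pool.Agent.X99.GJ.star m D) : ℝ) ≤ (mu + ε / 2) * 𝓜.card := h
    have h7 : (rank F D : ℝ) ≤ 2 * ∑ m ∈ 𝓜, (kk (Pool.Agent.X99.GJ.star m D) : ℝ) := by
      exact_mod_cast h4 D hD
    show (rank F D : ℝ) ≤ (2 * mu + ε) * ((2 ^ n : ℕ) : ℝ)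
    rw [← h3]
    linarith

end Pool.Agent.Results.MP_7cad78_nt.RankTailsMultiquadratic
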